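import Pool.Agent.Y29.LP.Many

/-!
# Every lattice-ordered group embeds into one without l-primes

Every lattice-ordered group is (up to isomorphism) a subgroup and sublattice of a 2-transitive
lattice-ordered group `L` of bounded automorphisms of a chain without l-primes `f > e`, and every
countable lattice-ordered group is contained in continuum many pairwise non-isomorphic countable
ones which act on the chain of the rational numbers.
-/

namespace Pool.Agent.Results.MP_31a5b6_al.EveryLatticeOrderedGroup

open Pool.Agent.Results.MP_31a5b6_al.EtaOne (IsSublatticeOf TwoTransitive BoundedSupport IsLPrime)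

/-- A subgroup `L` of the automorphism group of a chain as asked for in the problem: a sublattice,
2-transitive, of bounded support, and without l-primes `f > e`. -/
def Good {T : Type} [LinearOrder T] (L : Subgroup (T ≃o T)) : Prop :=
  IsSublatticeOf L ∧ TwoTransitive L ∧ BoundedSupport L ∧
    ∀ f ∈ L, (∀ t, t ≤ f t) → f ≠ 1 → ¬ IsLPrime L f

/-- The lattice-ordered group `G` embeds into `L`: there is an injective homomorphism of groups
which takes joins and meets to pointwise maxima and minima. -/
def EmbedsIn (G : Type) [Group G] [Lattice G] {T : Type} [LinearOrder T]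
    (L : Subgroup (T ≃o T)) : Prop :=
  ∃ φ : G →* L, Function.Injective φ ∧
    (∀ (a b : G) (t : T), (φ (a ⊔ b)).1 t = max ((φ a).1 t) ((φ b).1 t)) ∧
    (∀ (a b : G) (t : T), (φ (a ⊓ b)).1 t = min ((φ a).1 t) ((φ b).1 t))

/-- `L` and `L'` are isomorphic as lattice-ordered groups (pointwise order). -/
def Isomorphic (L L' : Subgroup (ℚ ≃o ℚ)) : Prop :=
  ∃ θ : L ≃* L', ∀ a b : L, (∀ t, a.1 t ≤ b.1 t) ↔ (∀ t, (θ a).1 t ≤ (θ b).1 t)

theorem good_of_nice {T : Type} [LinearOrder T] {L : Subgroup (T ≃o T)}
    (h : Pool.Agent.Y29.LP.Nice L) : Good L :=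
  ⟨h.lat, h.tra, h.bdd, fun f hf hpos hne hp => hp.2 (h.split f hf hpos hne)⟩

theorem embeds_of_emb {G : Type} [Group G] [Lattice G] {T : Type} [LinearOrder T]
    {L : Subgroup (T ≃o T)} {φ : G →* (T ≃o T)} (h : Pool.Agent.Y29.LP.Emb L φ) :
    EmbedsIn G L := by
  refine ⟨φ.codRestrict L h.mem, ?_, h.sup, h.inf⟩
  rw [injective_iff_map_eq_one]
  intro g hg
  by_contra hne
  exact h.inj g hne (congrArg Subtype.val hg)

/-- (1) For every lattice-ordered group `G` there are a chain `T` with more than two elements and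
a subgroup and sublattice `L` of its automorphism group, 2-transitive, of bounded support and
without l-primes `f > e`, such that `G` embeds into `L` as a lattice-ordered group.
(2) For every countable lattice-ordered group `G` there are such `L` which are countable and act on
the chain of the rational numbers, and there are continuum many of them, no two of which are
isomorphic as lattice-ordered groups. -/
theorem result :
    (∀ (G : Type) [Group G] [Lattice G] [MulLeftMono G] [MulRightMono G],
      ∃ (T : Type) (_ : LinearOrder T), (∃ x y z : T, x < y ∧ y < z) ∧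
        ∃ L : Subgroup (T ≃o T), Good L ∧ EmbedsIn G L) ∧
    (∀ (G : Type) [Group G] [Lattice G] [MulLeftMono G] [MulRightMono G] [Countable G],
      ∃ Λ : ℝ → Subgroup (ℚ ≃o ℚ),
        (∀ r, (Λ r : Set (ℚ ≃o ℚ)).Countable ∧ Good (Λ r) ∧ EmbedsIn G (Λ r)) ∧
        ∀ r r', r ≠ r' → ¬ Isomorphic (Λ r) (Λ r')) := by
  constructor
  · intro G _ _ _ _
    obtain ⟨T, LO, ⟨x⟩, hd, hmin, hmax, L, h1, φ, hφ⟩ := Pool.Agent.Y29.LP.every G
    obtain ⟨y, hy⟩ := exists_lt x
    obtain ⟨z, hz⟩ := exists_gt x
    exact ⟨T, LO, ⟨y, x, z, hy, hz⟩, L, good_of_nice h1, embeds_of_emb hφ⟩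
  · intro G _ _ _ _ _
    obtain ⟨Λ, h1, h2⟩ := Pool.Agent.Y29.LP.many G
    refine ⟨Λ, fun r => ⟨(h1 r).1, good_of_nice (h1 r).2.1, ?_⟩, h2⟩
    obtain ⟨φ, hφ⟩ := (h1 r).2.2
    exact embeds_of_emb hφ

end Pool.Agent.Results.MP_31a5b6_al.EveryLatticeOrderedGroup
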